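import Mathlib
import Pool.Agent.X273.SaitoDefs
import Pool.Agent.X273.ShapeDefs
import Pool.Agent.X273.QuadH

set_option autoImplicit false

/-!
# The resolution shape fails under the hypotheses (H)

Over every field of characteristic different from two with more than three elements there is an
arrangement of nine lines in `K^3` (namely `x y z (x² - y²) (y² - z²) (z² - c² x²)`) with
derivations `θ_1, …, θ_4` satisfying the hypotheses (H), whose module of logarithmic derivations
has no graded minimal free resolution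
`0 → ⨁_{i=4}^{p} S[-d_i-1] → ⨁_{i=1}^{p} S[-d_i] → D(A) → 0`. (Its minimal resolution is
`0 → S[-7] → S[-1] ⊕ S[-5]^3 → D(A) → 0`.)
-/

namespace Pool.Agent.Results.MP_ac8f1a_ag.WrongShape

open Pool.Agent.X273.Saito Pool.Agent.X273.Shape

theorem result : ∀ (K : Type) [Field K], (2 : K) ≠ 0 → (∃ c : K, c ≠ 0 ∧ c ^ 2 ≠ 1) →
    ∃ (A : Fin 9 → Fin 3 → K) (θ : Fin (3 + 1) → Der K 3)
      (g : Fin (3 + 1) → MvPolynomial (Fin 3) K),
      IsArrangement A ∧ HypH A θ g ∧
      ¬ ∃ (m : ℕ) (d : Fin (3 + m) → ℕ) (η : Fin (3 + m) → Der K 3)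
        (r : Fin m → Fin (3 + m) → MvPolynomial (Fin 3) K), IsShapedRes A m d η r := by
  intro K _ h2 ⟨c, hc, hc1⟩
  exact ⟨Pool.Agent.X273.Quad.qa c, Pool.Agent.X273.Quad.th c, Pool.Agent.X273.Quad.gv c,
    Pool.Agent.X273.Quad.arrangement h2 hc hc1, Pool.Agent.X273.Quad.hypH h2 hc hc1,
    Pool.Agent.X273.Quad.no_shape h2 hc hc1⟩

end Pool.Agent.Results.MP_ac8f1a_ag.WrongShape
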